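import Pool.Agent.E8helper59.TS.Stm3

/-!
# Project TS, part S_PLANE: separations of a planar type
-/

set_option autoImplicit false
open MeasureTheory Set Filter Topology
open scoped Pointwise ENNReal

namespace Pool.Agent.E8helper91.TS

open Pool.Agent.E8helper59.TS

lemma exists_pos_mem {V : Type} [NormedAddCommGroup V] [NormedSpace ℝ V] {U : Set V}
    (hU : IsOpen U) {x : V} (hx : x ∈ U) (v : V) : ∃ δ : ℝ, 0 < δ ∧ x + δ • v ∈ U := by
  have hc : Continuous (fun δ : ℝ => x + δ • v) := by fun_prop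
  have h0 : (fun δ : ℝ => x + δ • v) ⁻¹' U ∈ 𝓝 (0 : ℝ) := by
    refine (hU.preimage hc).mem_nhds ?_
    simpa using hx
  have h1 : ∀ᶠ δ in 𝓝[>] (0 : ℝ), x + δ • v ∈ U := nhdsWithin_le_nhds h0
  obtain ⟨δ, h2, h3⟩ := (h1.and self_mem_nhdsWithin).exists
  exact ⟨δ, h3, h2⟩

/-- the range of a functional on a body -/
lemma width {D : Set (ℝ × ℝ)} (hDc : IsCompact D) (hi : (interior D).Nonempty)
    (u : (ℝ × ℝ) →L[ℝ] ℝ) (hu : u ≠ 0) :
    ∃ a ∈ D, ∃ b ∈ D, 0 < u a - u b ∧ ∀ p ∈ D, u b ≤ u p ∧ u p ≤ u a := by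
  have hne : D.Nonempty := hi.mono interior_subset
  obtain ⟨a, ha, hmax⟩ := hDc.exists_isMaxOn hne u.continuous.continuousOn
  obtain ⟨b, hb, hmin⟩ := hDc.exists_isMinOn hne u.continuous.continuousOn
  refine ⟨a, ha, b, hb, ?_, fun p hp => ⟨hmin hp, hmax hp⟩⟩
  obtain ⟨x0, hx0⟩ := hi
  obtain ⟨e, he⟩ : ∃ e, u e ≠ 0 := by
    by_contra hcon
    push Not at hcon
    exact hu (ContinuousLinearMap.ext hcon)
  obtain ⟨e', he'⟩ : ∃ e, 0 < u e := by
    rcases lt_or_gt_of_ne he with h | h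
    · exact ⟨-e, by rw [map_neg]; linarith⟩
    · exact ⟨e, h⟩
  obtain ⟨δ, hδ, hmem⟩ := exists_pos_mem isOpen_interior hx0 e'
  have h1 : u b ≤ u x0 := hmin (interior_subset hx0)
  have h2 : u (x0 + δ • e') ≤ u a := hmax (interior_subset hmem)
  rw [map_add, map_smul, smul_eq_mul] at h2
  have h3 := mul_pos hδ he'
  linarith

/-- normalisation of a functional -/
lemma core {k m : ℕ} {K : Set (G k m)} {i : Fin k} (hDc : IsCompact (Pr k m i K))
    (hi : (interior (Pr k m i K)).Nonempty) (u : (ℝ × ℝ) →L[ℝ] ℝ) (hu : u ≠ 0) (c : ℝ)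
    (y : ℝ × ℝ) :
    ∃ (u' : (ℝ × ℝ) →L[ℝ] ℝ) (c' : ℝ), (∀ p ∈ Half (Pr k m i K), |u' p| ≤ 1 / 2) ∧
      (∃ p ∈ Half (Pr k m i K), u' p = 1 / 2) ∧
      (∀ r : ℝ × ℝ, (∀ x ∈ K, u (r + x.1 i) ≤ c) → u' (r - y) ≤ c') ∧
      ∀ r : ℝ × ℝ, (∀ x ∈ K, c ≤ u (r + x.1 i)) → c' + 1 ≤ u' (r - y) := by
  obtain ⟨a, ha, b, hb, hw, hall⟩ := width hDc hi u hu
  have ha' := ha
  have hb' := hb
  obtain ⟨xa, hxa, rfl⟩ := ha'
  obtain ⟨xb, hxb, rfl⟩ := hb'
  simp only at hw hall ha hb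
  obtain ⟨w, hwd⟩ : ∃ w, w = u (xa.1 i) - u (xb.1 i) := ⟨_, rfl⟩
  rw [← hwd] at hw
  have hwi : 0 < w⁻¹ := inv_pos.2 hw
  have hw1 : w⁻¹ * w = 1 := inv_mul_cancel₀ hw.ne'
  refine ⟨w⁻¹ • u, w⁻¹ * (c - u (xa.1 i) - u y), ?_, ?_, ?_, ?_⟩
  · rintro _ ⟨p, hp, q, hq, rfl⟩
    have h1 := hall p hp
    have h2 := hall q hq
    rw [smul_apply, map_smul, map_sub, smul_eq_mul, smul_eq_mul]
    have h3 : |u p - u q| ≤ w := by
      rw [abs_le]
      constructor <;> linarith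
    rw [abs_mul, abs_mul, abs_of_pos hwi, abs_of_pos (by norm_num : (0 : ℝ) < 1 / 2)]
    calc w⁻¹ * (1 / 2 * |u p - u q|) ≤ w⁻¹ * (1 / 2 * w) := by gcongr
      _ = (w⁻¹ * w) * (1 / 2) := by ring
      _ = 1 / 2 := by rw [hw1, one_mul]
  · refine ⟨(1 / 2 : ℝ) • (xa.1 i - xb.1 i), ⟨_, ha, _, hb, rfl⟩, ?_⟩
    rw [smul_apply, map_smul, map_sub, smul_eq_mul, smul_eq_mul, ← hwd]
    calc w⁻¹ * (1 / 2 * w) = (w⁻¹ * w) * (1 / 2) := by ring
      _ = 1 / 2 := by rw [hw1, one_mul]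
  · intro r hr
    have h1 := hr xa hxa
    rw [map_add] at h1
    rw [smul_apply, map_sub, smul_eq_mul]
    exact mul_le_mul_of_nonneg_left (by linarith) hwi.le
  · intro r hr
    have h1 := hr xb hxb
    rw [map_add] at h1
    rw [smul_apply, map_sub, smul_eq_mul]
    have h2 : w⁻¹ * (c - u (xa.1 i) - u y) + 1 = w⁻¹ * (c - u (xa.1 i) - u y + w) := by
      rw [mul_add, hw1]
    rw [h2]
    exact mul_le_mul_of_nonneg_left (by linarith) hwi.le

theorem t_PLANE (h1 : S_HALF) (h2 : S_FIN) : S_PLANE := by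
  intro k m K i A hKc hK hKi hA hCap
  have hpc : Continuous (fun x : G k m => x.1 i) := by fun_prop
  have hDc : IsCompact (Pr k m i K) := hKc.image hpc
  let pl : G k m →ₗ[ℝ] ℝ × ℝ := (LinearMap.proj i).comp (LinearMap.fst ℝ (Fin k → ℝ × ℝ) (Fin m → ℝ))
  have hD : Convex ℝ (Pr k m i K) := hK.linear_image pl
  have hop : IsOpenMap (fun x : G k m => x.1 i) := (isOpenMap_eval i).comp isOpenMap_fst
  have hDi : (interior (Pr k m i K)).Nonempty := by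
    obtain ⟨x, hx⟩ := hKi
    refine ⟨x.1 i, interior_maximal ?_ (hop _ isOpen_interior) ⟨x, hx, rfl⟩⟩
    exact image_mono interior_subset
  have hB : Bod (Half (Pr k m i K)) := h1 _ hDc hD hDi
  obtain ⟨ρ, hρ⟩ := hB.comp.isBounded.exists_norm_le
  have hρ' : ∀ p ∈ Half (Pr k m i K), ‖p‖ ≤ max ρ 0 := fun p hp => (hρ p hp).trans (le_max_left _ _)
  refine ⟨2 * max ρ 0, by positivity, ?_⟩
  intro F y ℓ hℓ hF hsep
  have main : ∀ t ∈ F, ∀ s ∈ F, t ≠ s → ∃ (u : (ℝ × ℝ) →L[ℝ] ℝ) (c : ℝ),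
      (∀ p ∈ Half (Pr k m i K), |u p| ≤ 1 / 2) ∧ (∃ p ∈ Half (Pr k m i K), u p = 1 / 2) ∧
      u (t.1 i - y.1 i) ≤ c ∧ c + 1 ≤ u (s.1 i - y.1 i) ∧
      ∀ r ∈ F, u (r.1 i - y.1 i) ≤ c ∨ c + 1 ≤ u (r.1 i - y.1 i) := by
    intro t ht s hs hts
    obtain ⟨u, c, hu, hor, hall⟩ := hsep t ht s hs hts
    obtain ⟨u', c', g1, ⟨p0, hp0, g2⟩, g3, g4⟩ := core hDc hDi u hu c (y.1 i)
    rcases hor with ⟨ha, hb⟩ | ⟨ha, hb⟩
    · refine ⟨u', c', g1, ⟨p0, hp0, g2⟩, g3 _ ha, g4 _ hb, fun r hr => ?_⟩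
      rcases hall r hr with h | h
      · exact Or.inl (g3 _ h)
      · exact Or.inr (g4 _ h)
    · refine ⟨-u', -(c' + 1), ?_, ⟨-p0, hB.symm p0 hp0, ?_⟩, ?_, ?_, fun r hr => ?_⟩
      · intro p hp
        rw [neg_apply, abs_neg]
        exact g1 p hp
      · rw [neg_apply, map_neg, neg_neg]
        exact g2
      · rw [neg_apply]
        have := g4 _ hb
        linarith
      · rw [neg_apply]
        have := g3 _ ha
        linarith
      · rw [neg_apply]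
        rcases hall r hr with h | h
        · have := g3 _ h
          exact Or.inr (by linarith)
        · have := g4 _ h
          exact Or.inl (by linarith)
  classical
  let F0 : Finset (ℝ × ℝ) := F.image fun t => t.1 i - y.1 i
  have hinj : Set.InjOn (fun t : G k m => t.1 i - y.1 i) (F : Set (G k m)) := by
    intro t ht s hs hts
    by_contra hne
    obtain ⟨u, c, -, -, g3, g4, -⟩ := main t ht s hs hne
    have hts' : t.1 i - y.1 i = s.1 i - y.1 i := hts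
    rw [hts'] at g3
    linarith
  have hcard : F0.card = F.card := Finset.card_image_of_injOn hinj
  have hSep : Pool.Agent.E8helper59.TS.Sep (Half (Pr k m i K)) F0 := by
    intro t' ht' s' hs' hne
    obtain ⟨t, ht, rfl⟩ := Finset.mem_image.1 ht'
    obtain ⟨s, hs, rfl⟩ := Finset.mem_image.1 hs'
    obtain ⟨u, c, g1, g2, g3, g4, g5⟩ := main t ht s hs fun h => hne (by rw [h])
    refine ⟨u, c, g1, g2, g3, g4, fun r' hr' => ?_⟩
    obtain ⟨r, hr, rfl⟩ := Finset.mem_image.1 hr'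
    exact g5 r hr
  have hnorm : ∀ t ∈ F0, ‖t‖ ≤ ℓ := by
    intro t' ht'
    obtain ⟨t, ht, rfl⟩ := Finset.mem_image.1 ht'
    have h3 := hF t ht
    rw [Metric.mem_closedBall, Prod.dist_eq] at h3
    rw [← dist_eq_norm]
    exact (dist_le_pi_dist t.1 y.1 i).trans ((le_max_left _ _).trans h3)
  have := h2 A (Half (Pr k m i K)) hA.le hB hCap (max ρ 0) hρ' ℓ F0 hℓ hSep hnorm
  rwa [hcard] at this

end Pool.Agent.E8helper91.TS
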